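import Pool.Agent.H440.OZ.Fin
import Pool.Agent.H440.OZ.Cst

/-!
# Simple zeros on the critical line: above the Montgomery–Taylor threshold on average over characters

All primitive Dirichlet characters `χ` of conductor `q`, `X < q ≤ Y`, are counted with the weight
`1/q²`.  Let `τ ≥ 0` be any real number and `h = (2 + τ)/(1 + τ)`, so that `X² T = (X T)^h` for
`T = X^τ`.  For the heights `T` up to `X ^ τ` the proportion of the zeros of `L(s, χ)` with
`T < Im s ≤ 2T`, counted with multiplicity, which are simple and lie on the critical line is on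
average at least `2 - c(h, γ) - ε`, for every `γ` in `(0, π)`, where
`c(h, γ) = R(0)/h + 2 h ∫ α in 0..1, min(α, 1/h) R(α)` and `R` is the self-convolution of the
cosine window `γ cos(γ x)/(2 sin(γ/2))` on `[-1/2, 1/2]`; a closed form is given below.  For every
`τ`, however large, this is larger than the threshold `2 - (1/2 + cot(1/√2)/√2) = 0.6725…`
of the problem, which is the limit `τ → ∞`.

This is the constant of the pair correlation with the form factor `min(|α|, 1)` in the whole range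
`|α| < h` of the large sieve inequality (`X² T` terms), while the earlier results for polynomial
heights (`Pool.Graph.R_pool_sql_team_seeded_63374d34.Results.*.PolynomialHeights`) have `|α|` in
place of `min(|α|, 1)`.  The case of small `τ` (heights `T ≤ X^η` for some `η > 0`) is
`Pool.Graph.R_seed8.Results.MP_77948b_nt.FamilyCritical9322`.

The proof: beyond the length `X T` the primes are compared with Selberg's model of the primes of
level `R = length / (X T)`, whose sums at all Farey fractions with denominators `> R` are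
negligible, and the large sieve inequality with the sharp constant is applied to the difference of
the two; the mean square of the difference is smaller by the factor `log (X T) / log (length)`.
The lower bound for the zeros is the trace inequality of `Pool.Agent.H385R2` (helper385), with no
hypothesis on zeros off the line.
-/

set_option autoImplicit false

namespace Pool.Agent.Results.MP_cb7589_nt.FamilyAboveThreshold

/-- The Dirichlet L-function of a character modulo `q` (the value for `q = 0` is never used). -/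
noncomputable def Lfun (q : ℕ) (χ : DirichletCharacter ℂ q) : ℂ → ℂ :=
  if h : q = 0 then 0 else
    haveI : NeZero q := ⟨h⟩
    DirichletCharacter.LFunction χ

/-- The zeros of `F` in the open critical strip with ordinate in `(T, 2T]`. -/
def zeros (F : ℂ → ℂ) (T : ℝ) : Set ℂ :=
  {s : ℂ | 0 < s.re ∧ s.re < 1 ∧ T < s.im ∧ s.im ≤ 2 * T ∧ F s = 0}

/-- The number of these zeros, counted with multiplicity. -/
noncomputable def N (F : ℂ → ℂ) (T : ℝ) : ℕ := ∑ᶠ s ∈ zeros F T, analyticOrderNatAt F s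

/-- The number of those of them that are simple and lie on the critical line. -/
noncomputable def Ns (F : ℂ → ℂ) (T : ℝ) : ℕ :=
  {s : ℂ | s ∈ zeros F T ∧ s.re = 1 / 2 ∧ analyticOrderNatAt F s = 1}.ncard

/-- The sum of `f q χ / q²` over all primitive Dirichlet characters `χ` of conductor `q`,
`X < q ≤ Y`. -/
noncomputable def fam (X Y : ℕ) (f : (q : ℕ) → DirichletCharacter ℂ q → ℕ) : ℝ :=
  ∑ q ∈ Finset.Ioc X Y, (1 / (q : ℝ) ^ 2) *
    ∑ᶠ χ : {χ : DirichletCharacter ℂ q // χ.IsPrimitive}, (f q χ : ℝ)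

/-- The constant `R(0)/h + 2 h ∫ α in 0..1, min(α, 1/h) R(α)` in closed form. -/
noncomputable def c (h γ : ℝ) : ℝ :=
  (γ / (2 * Real.sin (γ / 2))) ^ 2 / 2 *
    ((1 + Real.sin γ / γ) / h + 2 * h / γ ^ 2 * ((1 - 1 / h) * Real.cos (γ / h) - 1) +
      2 * h / γ ^ 3 * (2 * Real.sin (γ / h) + Real.sin (γ * (1 - 1 / h)) - Real.sin γ) +
      2 / γ ^ 2 * (1 - Real.cos γ))

/-- `cot t + t` is decreasing on `(0, π)`. -/
theorem cot_anti : AntitoneOn (fun t : ℝ => Real.cos t / Real.sin t + t) (Set.Ioo 0 Real.pi) := by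
  have hs : ∀ t ∈ Set.Ioo (0 : ℝ) Real.pi, 0 < Real.sin t := fun t ht =>
    Real.sin_pos_of_pos_of_lt_pi ht.1 ht.2
  have hd : ∀ t ∈ Set.Ioo (0 : ℝ) Real.pi, HasDerivAt (fun t : ℝ => Real.cos t / Real.sin t + t)
      (((-Real.sin t) * Real.sin t - Real.cos t * Real.cos t) / Real.sin t ^ 2 + 1) t := fun t ht =>
    ((Real.hasDerivAt_cos t).div (Real.hasDerivAt_sin t) (hs t ht).ne').add (hasDerivAt_id t)
  refine antitoneOn_of_deriv_nonpos (convex_Ioo 0 Real.pi)
    (fun t ht => (hd t ht).continuousAt.continuousWithinAt) ?_ ?_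
  · rw [interior_Ioo]
    exact fun t ht => (hd t ht).differentiableAt.differentiableWithinAt
  · rw [interior_Ioo]
    intro t ht
    rw [(hd t ht).deriv]
    have h1 := hs t ht
    have h2 := Real.sin_sq_add_cos_sq t
    have h3 : ((-Real.sin t) * Real.sin t - Real.cos t * Real.cos t) / Real.sin t ^ 2 + 1 =
        -(Real.cos t ^ 2 / Real.sin t ^ 2) := by
      field_simp
      ring
    rw [h3]
    have h4 : 0 ≤ Real.cos t ^ 2 / Real.sin t ^ 2 := by positivity
    linarith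

/-- the constant of the earlier result for polynomial heights is below `1/2 + cot(1/√2)/√2` -/
theorem old_le {h : ℝ} (h1 : 1 ≤ h) (h2 : h ≤ 2) :
    h / 2 + Real.cot (h / Real.sqrt 2) / Real.sqrt 2 ≤
      1 / 2 + Real.cot (1 / Real.sqrt 2) / Real.sqrt 2 := by
  have h0 : 0 < Real.sqrt 2 := Real.sqrt_pos.2 two_pos
  have hsq : Real.sqrt 2 * Real.sqrt 2 = 2 := Real.mul_self_sqrt two_pos.le
  have h3 : 1 / Real.sqrt 2 ≤ h / Real.sqrt 2 := div_le_div_of_nonneg_right h1 h0.le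
  have h4 : h / Real.sqrt 2 < Real.pi := by
    rw [div_lt_iff₀ h0]
    have h5 : (1 : ℝ) ≤ Real.sqrt 2 := by
      rw [show (1 : ℝ) = Real.sqrt 1 by simp]
      exact Real.sqrt_le_sqrt (by norm_num)
    nlinarith [Real.pi_gt_three]
  have h5 : (0 : ℝ) < 1 / Real.sqrt 2 := by positivity
  have h6 := cot_anti ⟨h5, lt_of_le_of_lt h3 h4⟩ ⟨lt_of_lt_of_le h5 h3, h4⟩ h3
  simp only at h6
  rw [Real.cot_eq_cos_div_sin, Real.cot_eq_cos_div_sin]
  set A := Real.cos (h / Real.sqrt 2) / Real.sin (h / Real.sqrt 2)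
  set B := Real.cos (1 / Real.sqrt 2) / Real.sin (1 / Real.sqrt 2)
  have h7 : A / Real.sqrt 2 + h / Real.sqrt 2 / Real.sqrt 2 ≤
      B / Real.sqrt 2 + 1 / Real.sqrt 2 / Real.sqrt 2 := by
    have := div_le_div_of_nonneg_right h6 h0.le
    rw [add_div, add_div] at this
    exact this
  have h8 : h / Real.sqrt 2 / Real.sqrt 2 = h / 2 := by rw [div_div, hsq]
  have h9 : 1 / Real.sqrt 2 / Real.sqrt 2 = 1 / 2 := by rw [div_div, hsq]
  rw [h8, h9] at h7
  linarith

/-- **Main theorem.**  (1) For every `τ ≥ 0` there is `δ > 0` such that for some `K`, `η > 0` and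
`X₀`, for `X ≥ X₀`, `K X ≤ Y ≤ X ^ (1 + η)` and `4 (log X)² ≤ T ≤ X ^ τ` the average over
all primitive Dirichlet characters of conductor in `(X, Y]`, with weight `1/q²`, of the number
of simple zeros on the line `Re s = 1/2`, `T < Im s ≤ 2T`, is at least
`2 - (1/2 + cot(1/√2)/√2) + δ` times that of the number of all zeros with `0 < Re s < 1`,
`T < Im s ≤ 2T`, counted with multiplicity.
(2) The same with the proportion `2 - c((2 + τ)/(1 + τ), γ) - ε` for all `γ ∈ (0, π)`, `ε > 0`.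
(3) For `1 < h ≤ 2` the constant `c (h, √2 h)` is smaller than the constant
`h/2 + cot(h/√2)/√2` of the earlier result for polynomial heights, which is at most
`1/2 + cot(1/√2)/√2`.
(4) Numerical values: for `h → 2` (`T ≤ X^τ`, `τ → 0`) the proportion
tends to at least `0.9322`, for `τ = 1` it is `≥ 0.8656 - ε`, for `τ = 2` it is `≥ 0.8243 - ε`. -/
theorem result :
    (∀ τ : ℝ, 0 ≤ τ → ∃ δ K η X0 : ℝ, 0 < δ ∧ 1 ≤ K ∧ 0 < η ∧ 1 ≤ X0 ∧
      ∀ (X Y : ℕ) (T : ℝ), X0 ≤ X → K * X ≤ Y → (Y : ℝ) ≤ (X : ℝ) ^ (1 + η) →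
        4 * (Real.log X) ^ 2 ≤ T → T ≤ (X : ℝ) ^ τ →
        (2 - (1 / 2 + Real.cot (1 / Real.sqrt 2) / Real.sqrt 2) + δ) *
            fam X Y (fun q χ => N (Lfun q χ) T) ≤
          fam X Y (fun q χ => Ns (Lfun q χ) T)) ∧
    (∀ τ γ ε : ℝ, 0 ≤ τ → 0 < γ → γ < Real.pi → 0 < ε → ∃ K η X0 : ℝ, 1 ≤ K ∧ 0 < η ∧ 1 ≤ X0 ∧
      ∀ (X Y : ℕ) (T : ℝ), X0 ≤ X → K * X ≤ Y → (Y : ℝ) ≤ (X : ℝ) ^ (1 + η) →
        4 * (Real.log X) ^ 2 ≤ T → T ≤ (X : ℝ) ^ τ →
        (2 - c ((2 + τ) / (1 + τ)) γ - ε) * fam X Y (fun q χ => N (Lfun q χ) T) ≤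
          fam X Y (fun q χ => Ns (Lfun q χ) T)) ∧
    (∀ h : ℝ, 1 < h → h ≤ 2 →
      c h (Real.sqrt 2 * h) < h / 2 + Real.cot (h / Real.sqrt 2) / Real.sqrt 2 ∧
      h / 2 + Real.cot (h / Real.sqrt 2) / Real.sqrt 2 ≤
        1 / 2 + Real.cot (1 / Real.sqrt 2) / Real.sqrt 2) ∧
    c 2 (9 / 4) ≤ 1.0678 ∧ c (3 / 2) (39 / 20) ≤ 1.1344 ∧ c (4 / 3) (9 / 5) ≤ 1.1757 := by
  have main : ∀ τ γ ε : ℝ, 0 ≤ τ → 0 < γ → γ < Real.pi → 0 < ε → ∃ K η X0 : ℝ, 1 ≤ K ∧ 0 < η ∧
      1 ≤ X0 ∧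
      ∀ (X Y : ℕ) (T : ℝ), X0 ≤ X → K * X ≤ Y → (Y : ℝ) ≤ (X : ℝ) ^ (1 + η) →
        4 * (Real.log X) ^ 2 ≤ T → T ≤ (X : ℝ) ^ τ →
        (2 - c ((2 + τ) / (1 + τ)) γ - ε) * fam X Y (fun q χ => N (Lfun q χ) T) ≤
          fam X Y (fun q χ => Ns (Lfun q χ) T) := by
    intro τ γ ε hτ h0 hπ hε
    obtain ⟨K, η, X0, hK, hη, hX0, h⟩ := Pool.Agent.H440.OZ.fin_main τ γ ε hτ h0 hπ hε
    exact ⟨K, η, X0, hK, hη, hX0, fun X Y T a1 a2 a3 a4 a5 => (h X Y T a1 a2 a3 a4 a5).1⟩
  refine ⟨?_, main, fun h h1 h2 => ⟨Pool.Agent.H440.OZ.cN_lt h h1 h2, old_le h1.le h2⟩,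
    Pool.Agent.H440.OZ.LNum.num2_main.1, Pool.Agent.H440.OZ.LNum.num2_main.2.1,
    Pool.Agent.H440.OZ.LNum.num2_main.2.2⟩
  intro τ hτ
  have hτ1 : 0 < 1 + τ := by linarith
  have hh1 : 1 < (2 + τ) / (1 + τ) := by
    rw [lt_div_iff₀ hτ1]; linarith
  have hh2 : (2 + τ) / (1 + τ) ≤ 2 := by
    rw [div_le_iff₀ hτ1]; linarith
  set h := (2 + τ) / (1 + τ) with hh
  have hs1 : (1 : ℝ) < Real.sqrt 2 := by
    rw [show (1 : ℝ) = Real.sqrt 1 by simp]
    exact Real.sqrt_lt_sqrt (by norm_num) (by norm_num)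
  have hs2 : Real.sqrt 2 < 1.5 := by
    rw [Real.sqrt_lt' (by norm_num)]
    norm_num
  have hγ0 : 0 < Real.sqrt 2 * h := by positivity
  have hγπ : Real.sqrt 2 * h < Real.pi := by nlinarith [Real.pi_gt_three]
  have hlt : c h (Real.sqrt 2 * h) < 1 / 2 + Real.cot (1 / Real.sqrt 2) / Real.sqrt 2 :=
    lt_of_lt_of_le (Pool.Agent.H440.OZ.cN_lt h hh1 hh2) (old_le hh1.le hh2)
  set M := 1 / 2 + Real.cot (1 / Real.sqrt 2) / Real.sqrt 2 with hM
  have hδ : 0 < (M - c h (Real.sqrt 2 * h)) / 2 := by linarith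
  obtain ⟨K, η, X0, hK, hη, hX0, H⟩ := main τ (Real.sqrt 2 * h) _ hτ hγ0 hγπ hδ
  refine ⟨(M - c h (Real.sqrt 2 * h)) / 2, K, η, X0, hδ, hK, hη, hX0,
    fun X Y T a1 a2 a3 a4 a5 => le_trans ?_ (H X Y T a1 a2 a3 a4 a5)⟩
  have hfam : 0 ≤ fam X Y (fun q χ => N (Lfun q χ) T) := by
    unfold fam
    refine Finset.sum_nonneg fun q _ => mul_nonneg (by positivity) ?_
    exact finsum_nonneg fun χ => Nat.cast_nonneg _
  apply mul_le_mul_of_nonneg_right _ hfam
  rw [← hh]
  linarith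

end Pool.Agent.Results.MP_cb7589_nt.FamilyAboveThreshold
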