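import Pool.Agent.H481.OL4

/-!
# Moments and correlations of any finite degree are compatible with a positive proportion of zeros off the line

In the unitary model for `ζ` a random polynomial `P(x) = ∏ (x - z_j)` of degree `N` with the
functional equation (its zeros are closed under `z ↦ 1 / conj z`, the reflection in the unit
circle, which plays the part of the critical line) stands for `ζ` near a random height.  The
prediction is that the means `E[F(z) conj G(z)]`, for symmetric polynomials `F`, `G` in the zeros,
are those of the characteristic polynomial of a Haar distributed unitary matrix.  For total degree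
at most `R` these means contain the correlations of the zeros of range `R`, and with `R = k N` all
the `2k`-th moments of `P` and its derivatives, at arbitrary points on or off the circle, with
arbitrary mollifiers of degree at most `R - k N`.  What is proved for `ζ` (Montgomery,
Rudnick-Sarnak, second and fourth moments, the mollified moments behind the theorems of Selberg,
Levinson and Conrey) corresponds to data of this kind with `R` at most a constant times `N`.

It is proved that no range `R = λ N` suffices to show that almost all zeros are on the circle: for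
all `N`, `R` and `δ > 0` there are `N` random points, closed under the reflection and almost
surely simple, which have exactly the predicted means up to degree `R`, whose absolute values are
`1`, `e^δ` and `e^{-δ}`, and for which the mean number of points off the circle is
`∑_{a, b < N} sinh² (δ (a - b)) / (D sinh² (D δ))`, `D = N + R`.  For `δ = 1 / D` this is at least
`N² (N² - 1) / (9 (N + R)³)`, a positive proportion of `N` for `R = λ N`.

Idea of the construction.  Start with the law `|Δ(z)|²` on the `2D`-th roots of unity.  At `D`
points `τ` between them put `i a (δ_{τ e^δ} - δ_{τ e^{-δ}})` with the formal random amplitudes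
`ω_τ - s_τ`, and compensate them by real fields `s_τ ψ_τ` on the grid which agree with them in the
frequencies below `D`; these fields are Poisson kernels with alternating signs.  Here `s_τ` are
independent signs and `E[P(ω_τ) | s_τ] = P(0) + s_τ P'(0)`, so that for functions of frequencies
below `D` the noise has no effect in the mean.  As the Vandermonde determinant vanishes if two
points coincide, a source is used either not at all or by exactly two points, one at `τ e^δ` and
one at `τ e^{-δ}`, and the holomorphic form of `|Δ|²` has the right sign for this.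
-/

open MeasureTheory

namespace Pool.Agent.Results.MP_cb7589_nt.OffLineBarrier

/-- the mean of `f` over the eigenvalues `z = (e^{iθ_1}, …, e^{iθ_N})` of a Haar distributed
unitary `N × N` matrix (Weyl's formula):
`(N! (2π)^N)⁻¹ ∫_{(0, 2π]^N} f(z) ∏_{i < j} |z_j - z_i|² dθ` -/
noncomputable def haarMean (N : ℕ) (f : (Fin N → ℂ) → ℂ) : ℂ :=
  ((N.factorial : ℂ) * (2 * Real.pi) ^ N)⁻¹ *
    ∫ θ in Set.univ.pi fun _ : Fin N => Set.Ioc (0 : ℝ) (2 * Real.pi),
      f (fun j => Complex.exp (Complex.I * θ j)) *
        ((∏ i : Fin N, ∏ j ∈ Finset.Ioi i,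
          ‖Complex.exp (Complex.I * θ j) - Complex.exp (Complex.I * θ i)‖ ^ 2 : ℝ) : ℂ)

/-- `ν` is a law of `N` points of the plane, almost surely closed (with multiplicities) under the
reflection `z ↦ 1 / conj z` in the unit circle, for which the means `E[F(z) conj G(z)]` of the
symmetric polynomials `F`, `G` of total degree at most `R` are those of the eigenvalues of a Haar
distributed unitary `N × N` matrix -/
structure Mimics (N R : ℕ) (ν : Measure (Fin N → ℂ)) : Prop where
  prob : IsProbabilityMeasure ν
  reflection : ∀ᵐ z ∂ν, ∃ π : Equiv.Perm (Fin N), ∀ i, z (π i) * (starRingEnd ℂ) (z i) = 1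
  integrable : ∀ F G : MvPolynomial (Fin N) ℂ,
    Integrable (fun z => MvPolynomial.eval z F * (starRingEnd ℂ) (MvPolynomial.eval z G)) ν
  moments : ∀ F G : MvPolynomial (Fin N) ℂ, F.IsSymmetric → G.IsSymmetric →
    F.totalDegree ≤ R → G.totalDegree ≤ R →
    ∫ z, MvPolynomial.eval z F * (starRingEnd ℂ) (MvPolynomial.eval z G) ∂ν =
      haarMean N (fun z => MvPolynomial.eval z F * (starRingEnd ℂ) (MvPolynomial.eval z G))

/-- the number of the points off the unit circle -/
noncomputable def offCircle {N : ℕ} (z : Fin N → ℂ) : ℕ :=
  (Finset.univ.filter fun i => ‖z i‖ ≠ 1).card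

/-- the mean number of the points off the circle in the construction -/
noncomputable def meanOff (N R : ℕ) (δ : ℝ) : ℝ :=
  (∑ a : Fin N, ∑ b : Fin N, Real.sinh (δ * ((a : ℕ) - (b : ℕ))) ^ 2) /
    (((N : ℝ) + R) * Real.sinh (((N : ℝ) + R) * δ) ^ 2)

/-- **Theorem.** For all `N ≥ 1`, `R` and `δ > 0` there are `N` random points, closed under the
reflection in the unit circle, with the means of the unitary group `U(N)` for all symmetric
polynomials of degree at most `R`, almost surely distinct, with all absolute values in
`{1, e^δ, e^{-δ}}`, for which the mean number of the points off the circle is `meanOff N R δ`; and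
for `δ = 1 / (N + R)` this number is at least `N² (N² - 1) / (9 (N + R)³)`. -/
theorem result (N R : ℕ) (hN : 1 ≤ N) :
    (∀ δ : ℝ, 0 < δ → ∃ ν : Measure (Fin N → ℂ), Mimics N R ν ∧
      (∀ᵐ z ∂ν, Function.Injective z) ∧
      (∀ᵐ z ∂ν, ∀ i, ‖z i‖ = 1 ∨ ‖z i‖ = Real.exp δ ∨ ‖z i‖ = Real.exp (-δ)) ∧
      ∫ z, (offCircle z : ℝ) ∂ν = meanOff N R δ) ∧
    (N : ℝ) ^ 2 * ((N : ℝ) ^ 2 - 1) / (9 * ((N : ℝ) + R) ^ 3) ≤ meanOff N R (1 / ((N : ℝ) + R)) := by
  have hcast : ((N + R : ℕ) : ℝ) = (N : ℝ) + R := by push_cast; rfl
  constructor
  · intro δ hδ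
    have hD : 0 < N + R := by omega
    refine ⟨Pool.Agent.H481.OL.lawo N (N + R) δ, ⟨?_, ?_, ?_, ?_⟩, ?_, ?_, ?_⟩
    · exact Pool.Agent.H481.OL.lawo_prob hN (by omega) hδ
    · refine Pool.Agent.H481.OL.lawo_ae fun x hx => ?_
      obtain ⟨π, -, hπ⟩ := Pool.Agent.H481.OL.exists_perm hx
      refine ⟨π, fun i => ?_⟩
      show (Pool.Agent.H481.OL.dt (N + R) δ).pos (x (π i)) *
        (starRingEnd ℂ) ((Pool.Agent.H481.OL.dt (N + R) δ).pos (x i)) = 1
      rw [hπ]
      exact Pool.Agent.H481.OL.po_pair δ (x i)
    · intro F G
      unfold Pool.Agent.H481.OL.lawo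
      rw [integrable_finsetSum_measure]
      intro x _
      exact (integrable_dirac enorm_lt_top).smul_measure ENNReal.ofReal_ne_top
    · exact fun F G _ hGs hF hG =>
        Pool.Agent.H481.OL.lawo_mom hN (le_refl _) hδ F G hF hG hGs
    · refine Pool.Agent.H481.OL.lawo_ae fun x hx => ?_
      exact fun i j hij => hx.1 (Pool.Agent.H481.OL.po_inj hD hδ hij)
    · refine Pool.Agent.H481.OL.lawo_ae fun x hx i => ?_
      show ‖(Pool.Agent.H481.OL.dt (N + R) δ).pos (x i)‖ = 1 ∨
        ‖(Pool.Agent.H481.OL.dt (N + R) δ).pos (x i)‖ = Real.exp δ ∨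
        ‖(Pool.Agent.H481.OL.dt (N + R) δ).pos (x i)‖ = Real.exp (-δ)
      rcases x i with k | ⟨l, b⟩
      · exact Or.inl (Pool.Agent.H481.OL.po_norm_grid δ k)
      · have := Pool.Agent.H481.OL.po_norm_src δ l b
        cases b
        · exact Or.inr (Or.inr (by simpa using this))
        · exact Or.inr (Or.inl (by simpa using this))
    · have h := Pool.Agent.H481.OL.lawo_count (N := N) (D := N + R) hN (by omega) hδ
      rw [hcast] at h
      exact h
  · have h := Pool.Agent.H481.OL.lower (N := N) (D := N + R) hN (by omega)
    rw [hcast] at h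
    exact h

end Pool.Agent.Results.MP_cb7589_nt.OffLineBarrier
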